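import Pool.Agent.J4H50.YZ.Main

set_option autoImplicit false

/-!
# The motivic monodromy conjecture for germs with a given tangent cone (superisolated and Lê-Yomdin
# singularities, in all dimensions)

Let `𝓒` be the least class of formal power series `f`, `f(0) = 0`, for example germs of polynomials or
of holomorphic functions, which contains

* the smooth germs,
* the reduced plane curves,
* the semi-weighted-homogeneous germs in any number of variables,

and which is closed under

* Thom-Sebastiani sums `f(x) + g(y)`,
* changes of the coordinates and multiplication by units,
* the following operation. Let `f = f_d + R` be a germ in `n` variables, `f_d` a form of degree `d ≥ 2`,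
  all terms of `R` of degree greater than `d`, such that the tangent cone `f_d = 0` has only finitely
  many singular points `P` in the projective space. Suppose that in suitable formal coordinates
  `(z, y)` of the blowing up of the origin at `P`, where `z = 0` is the exceptional divisor, and up to
  a unit, `f = z ^ d (g_P(y) + z ^ k_P)`, `n ≤ d + k_P`. If all the `g_P` are in `𝓒`, then `f` is in `𝓒`,
  with one condition, see below. For instance, this holds if all terms of `R` have degree at least
  `d + k`, and the terms of degree `d + k` do not vanish at the singular points of the tangent cone
  (`k_P = k`, and `g_P` is the germ of the tangent cone at `P`): these are the superisolated singularities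
  (`k = 1`) and the Lê-Yomdin singularities, in any number of variables.

In particular, for `n = 3` the `g_P` are reduced plane curves, so that the class contains all the
superisolated and Lê-Yomdin singularities of surfaces (with the condition), then all those in four
variables whose tangent cones have such singularities, and so on, and all the Thom-Sebastiani sums of
these germs. The singularities of these germs are isolated, but usually they are degenerate for their
Newton polyhedra, in all coordinates.

We prove the motivic monodromy conjecture in its strong form (with roots of the local Bernstein-Sato
polynomial instead of eigenvalues of the monodromy; by the theorem of Malgrange and Kashiwara,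
`exp(2 π i s₀)` is an eigenvalue at some point near the origin for every root `s₀`) for all `f` in `𝓒`; and
this for the usual motivic zeta function and for the monodromic one, whose coefficients are the
classes of the spaces of arcs over the multiplicative group, by the angular component (so for the
equivariant zeta function of Denef and Loeser).

The condition concerns the number `- n / d`: it is assumed that the differential form
`f_d ^ (- n / d) dx_1 ∧ ⋯ ∧ dx_n` is not exact on the complement of the cone (`NonExact`; as for the `n / d`
conjecture for hyperplane arrangements), or that there is a de Rham functional for one of the `g_P` at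
`- n / d` (`NV`).

The zeta functions are part of the definition of the class (`TCM`). The coefficients are in an algebra
`E` over a commutative ring `M` with a unit `L`, with the structure `CSys`; the example is
`M = K₀(Var_ℂ)[1/L]`, `E = K₀(Var_𝔾)[1/L]`, the Grothendieck ring of the varieties over the
multiplicative group `𝔾`. The zeta function of `f_d + R` is given by the formula `coneM`, in terms of the
classes of the complement of the tangent cone and of the zeta functions of the `g_P`; it is obtained by
blowing up the origin, see the comment on `ptM`. The zeta functions of plane curves are computed by
blowing up points of the plane (`RedW`, `lfR`, `edR`), and the ones of `f(x) + g(y)` by the motivic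
Thom-Sebastiani formula (`tsm`). (The identities in the proof were checked with the model of `CSys` in
which `E` is the ring of functions on the multiplicative group of a finite field, and `coneM` was
compared with the formula for weighted homogeneous polynomials for `E₆`, `A₂`.)

Method. A de Rham functional for `f` at `s` (`DR`) is a linear functional on the differential forms
`q f ^ (s - k) dx`, `q` a power series, which vanishes on exact forms. `NV f s` says that there is one
with the value `q(0)` at `q f ^ s dx`. It implies that `s` is a root of the Bernstein-Sato polynomial,
if `f` is not smooth (`t_NFE`). Let `KN f a n` mean that `NV f (- n / a)` holds, and `f` is not smooth. The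
proof shows that `𝓩` is decomposed (`DecE`) as `𝓩 = 𝓡 + ρ`, `ρ` with coefficients in `M`, such that `𝓡`,
`σ = (1 - L⁻¹ T) ρ` and `δ = (1 - tot 𝓩) / (1 - T) - ρ` only have denominators `1 - L⁻ⁿ Tᵃ` with `KN f a n`:

* `t_Z6`, `t_Z7`, `t_Z8`: for plane curves, if there is no functional, then a differential equation on an
  exceptional curve with `- ν / N = s` has a rational solution, and the curve meets at most two other
  components; the class of its covering is then the obvious one; all denominators are removed at the
  same time, over a unique factorization domain;
* `t_Z1`, `t_Z2`: Thom-Sebastiani sums, semi-weighted-homogeneous germs;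
* `t_Z4`, `t_Z5`: let `q = L⁻ⁿ Tᵈ`, `Θ x = ∑_j L^(- n ⌊j / k⌋) x_j T^(j + d ⌊j / k⌋)`, and `Γ x` the sum of the terms of
  `Θ x` with `k ∣ j`. The contribution of a point `P` of the tangent cone is `𝓡' + ρ'` with
  `𝓡' = [u ^ (d + k)] (Γ δ - 1) + q / (1 - q) mu(u ^ d, Θ 𝓡) + cz(Γ 𝓡)`,
  `(1 - L⁻¹ T) ρ' = (L - 1) (q / (1 - q) Θ σ + Γ σ) + L⁻¹ T λ`, `λ = zr(u ^ k, Γ 𝓡)`, and for `f_d + R`
  `δ = (1 + ⋯ + T^(d-1)) / (1 - q) + (L - 1) q / (1 - q) (b + ∑ Θ δ_P) + ∑ λ_P`, so that only the denominators
  `1 - q` and those which come from the `g_P` occur; here a denominator `1 - L⁻ᵐ Tᵃ` for `g_P` gives
  `1 - L^(- k m - n a) T^((d + k) a)` (`t_Z3`);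
* `t_CN`: from a functional for `g_P` at `(n + (d + k) s) / k` one gets a functional for `f` at `s`, by
  pulling back forms by the blowing up; `t_NE`: the number `- n / d`; `t_SU`: the sums. -/

namespace Pool.Agent.Results.MP_9321be_ag.TangentConeGerms

open Pool.Agent.W574.MO Pool.Agent.J4H46.MS Pool.Agent.J4H50.YZ
open Pool.Agent.Y229.PS (IsFormalBFunction)

/-- **The local motivic monodromy conjecture for germs with a given tangent cone.**

Let `M` be a commutative ring with a unit `L`, and `E` an `M`-algebra with the structure
`CSys M E L`; for example `M = K₀(Var_ℂ)[1/L]`, and `E` is the localized Grothendieck ring of the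
varieties over the multiplicative group. Let the formal power series `f` (for example the germ of a
polynomial or of a holomorphic function) be in the class `𝓒` with the local monodromic motivic zeta
function `𝓩` (`TCM`), normalized such that the arcs at the origin have the volume `1`; the usual motivic
zeta function is `tot 𝓩 ∈ M⟦T⟧`. Let `b` satisfy `IsFormalBFunction f b`: `b(s) f ^ s = P(s) f ^ (s + 1)`
for a differential operator `P(s)` with formal power series as coefficients, polynomial in `s`. Then
`𝓩` lies in the ring `E[T][(1 - L⁻ⁿ Tᵃ)⁻¹]`, and `tot 𝓩` in the ring `M[T][(1 - L⁻ⁿ Tᵃ)⁻¹]`, where the
pairs `a, n ≥ 1` are such that `b(-n/a) = 0` (`Kb b a n`). -/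
theorem result {M E : Type} [CommRing M] [CommRing E] [Algebra M E] (L : Mˣ) (S : CSys M E L)
    {N : ℕ} (f : MvPowerSeries (Fin N) ℂ) (Z : PowerSeries E) (hZ : TCM S (Fin N) f Z)
    (b : Polynomial ℂ) (hb : IsFormalBFunction f b) :
    Z ∈ DenRing (LE L) (Kb b) ∧ cm S.tot Z ∈ DenRing L (Kb b) :=
  tcm_local' f Z hZ b hb

end Pool.Agent.Results.MP_9321be_ag.TangentConeGerms
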