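import Pool.Agent.J4H50.YW.Main

set_option autoImplicit false

/-! # The motivic monodromy conjecture for superisolated singularities, with spaces of jets

Let `f ∈ ℂ[x_1, ..., x_n]` be superisolated at the origin (`SQ`): `f = f_d + f_{d+1} + ⋯`, `f_d ≠ 0`,
`d ≥ 2`, such that at each singular point `P` of the tangent cone `f_d = 0` in the projective space
`f_{d+1}(P) ≠ 0`, and the germ of the tangent cone at `P` is in the class `SL`. This class contains

* for `n = 2` all isolated singularities of plane curves;
* the semi-weighted-homogeneous singularities in any number of variables, for instance the simple
  singularities `A_k`, `D_k`, `E_6`, `E_7`, `E_8`;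
* with a germ also the ones which are obtained from it by formal coordinate changes and
  multiplication by units;
* again the superisolated singularities (with the condition (*) below, without the case `d = n`).

If `n > d + 1`, there is a condition for the germs `g` of the tangent cone: there is no de Rham
functional (`NV`) at the numbers `- (n - j (d + 1)) / d`, `j ≥ 1`, `j (d + 1) < n` (a functional at `- r` gives
the root `- r` of the Bernstein-Sato polynomial of `g`).

In particular, for `n = 3` these are all superisolated singularities of surfaces (Luengo): the tangent
cone may be any reduced plane curve of degree `d ≥ 2`, with arbitrary singularities. For `n = 4` the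
tangent cone may be any surface with only simple singularities, or with semi-weighted-homogeneous
ones, or superisolated ones, and so on, in all dimensions. These singularities are usually degenerate
for their Newton polyhedra in all coordinates.

We prove that all the poles of the local motivic zeta function of `f`, except possibly for the number
`- n / d` (the candidate pole which belongs to the blowing up of the origin), are roots of the local
Bernstein-Sato polynomial; and `- n / d` too under the following condition (`Star`), so that then the
motivic monodromy conjecture holds for `f`:

(*) `d = n`, or the differential form `f_d ^ (- n / d) dx_1 ∧ ⋯ ∧ dx_n` is not exact on the complement of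
the cone (`NonExact`; as for the `n / d` conjecture for hyperplane arrangements), or there is a de Rham
functional (`NV`) at `- n / d` for the germ of the tangent cone at some `P`.

Moreover for some integer `j` the number `- n / d + j` is a root under the weaker condition (`WeakStar`)

(**) for some `m ≥ 0` and some form `q` of degree `m d` the differential form
`q f_d ^ (- n / d - m) dx_1 ∧ ⋯ ∧ dx_n` is not exact on the complement of the cone.

(By the comparison theorem of Grothendieck and Deligne (**) says that the cohomology group
`H ^ (n - 1) (ℙ ^ (n - 1) ∖ {f_d = 0}, L)` is not zero, where `L` is the local system of rank one defined by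
`f_d ^ (- n / d)`.) As `exp(2 π i (- n / d + j)) = exp(- 2 π i n / d)` this is enough for the monodromy
conjecture.

The zeta function is literally the one of the problem: `zetaO f = 𝕃 ^ (-n) ∑_{l ≥ 1} [𝒳_l^0] 𝕃 ^ (-n l) T ^ l`,
where `[𝒳_l^0]` is the class of the space of the `l`-jets `φ` with `φ(0) = 0` and `ord_t f(φ) = l` in the
Grothendieck ring `K₀(Var_ℂ)[1/𝕃]` (`K0`, `MK`, `cls`). (The earlier result `TangentConeGerms` is about
other germs, too, but with the series which one computes by certain rules instead of the jets, and
with (*).)

Method (`Pool/Agent/J4H50/YJ`, `YK`, `YL`). No resolution and no change of variables formula for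
birational maps is used; all is done with cylinders in the space of arcs over an algebraic closure.

* `bas`: the volumes of cylinders: additivity, products, multiplication of the coordinates by powers of
  `t`, elimination of a coefficient which occurs linearly (`S_LIN`), and invariance under
  isomorphisms of cylinders which preserve the levels (`S_ISO`).
* `t_P1`, ..., `t_P5`: plane curves: the generating function of the volumes of `{ord f(φ) = l}`, with
  conditions on the orders of the coordinates, is the one which is computed by the tree of blow-ups of
  points of the plane.
* `t_W0`, ..., `t_W5`: semi-weighted-homogeneous germs: the arcs are divided by `min_i (ord x_i / w_i)`.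
* `t_CE`: formal coordinate changes, on jets.
* `t_C1`, `t_C2`, `t_C3`: `φ = t ^ i ξ`, `ξ(0) ≠ 0`: the volumes for `ξ(0)` outside of the tangent cone, at its
  smooth points, and at a point `P` with `f_{d+1}(P) ≠ 0` in terms of the volumes for the germ of the
  tangent cone at `P`; `t_C5`: the classes of the cones; `t_G`: finiteness of the number of the `P`.
* `t_C4`: the generating function of the volumes for `f` from the ones for the germs at the `P`.
* `Pool.Agent.J4H19.YM.t_M8`, `dec_curve`, `t_M7`: the denominators (all the other ones cancel), in
  terms of de Rham functionals; `J4H94.YP.t_G`: functionals for the germs of the tangent cone give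
  functionals for `f` (pull back of forms by the blowing up); `J4H45.YO.t_NFE`: functionals give roots
  of the Bernstein-Sato polynomial; `J4H50.YW`: the condition (**). -/

namespace Pool.Agent.Results.MP_9321be_ag.TangentConeJets

open MvPolynomial Pool.Agent.W428.MOT Pool.Agent.H628R4.TP Pool.Agent.TH192.MT
  Pool.Agent.J4H50.YL Pool.Agent.J4H50.YW

/-- **The motivic monodromy conjecture for superisolated singularities.** Let `f` be a polynomial
which is superisolated at the origin, of multiplicity `d` (`SQ`). There is a finite set `S` of pairs
`(c, e)`, `c < 0 < e`, such that the local motivic zeta function of `f` lies in the ring generated by `T`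
and the `1 / (1 - 𝕃 ^ c T ^ e)`, `(c, e) ∈ S`, and for all `(c, e) ∈ S` the number `c / e` is `- n / d`, or a root
of every `b` which satisfies a functional equation `b(s) f ^ s = P(s) f ^ (s + 1)`, where `P(s)` is a
differential operator with formal power series coefficients at the origin, in particular of the local
Bernstein-Sato polynomial of `f` at the origin (by the theorem of Malgrange and Kashiwara,
`exp(2 π i c / e)` is then a monodromy eigenvalue of `f` at a point in each neighbourhood of the origin).
Under the condition (*) (`Star`) the number `- n / d` is a root of these `b`, too, and under the condition
(**) (`WeakStar`) there is an integer `j` such that `- n / d + j` is a root of all these `b`. -/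
theorem result {n : ℕ} (d : ℕ) (f : MvPolynomial (Fin n) ℂ) (hf : SQ (Fin n) d f) :
    (∃ S : Finset (ℤ × ℤ), (∀ q ∈ S, q.1 < 0 ∧ 0 < q.2 ∧
      ((q.1 : ℂ) / q.2 = -(n : ℂ) / d ∨
        ∀ b : Polynomial ℂ, IsLocalBFunction f b → b.eval ((q.1 : ℂ) / q.2) = 0)) ∧
      zetaO f ∈ ratRing ℂ (S : Set (ℤ × ℤ))) ∧
    (Star (Fin n) d f → ∀ b : Polynomial ℂ, IsLocalBFunction f b →
      b.eval (-(n : ℂ) / d) = 0) ∧
    (WeakStar (Fin n) d f → ∃ j : ℤ, ∀ b : Polynomial ℂ, IsLocalBFunction f b →
      b.eval (-(n : ℂ) / d + j) = 0) :=
  Pool.Agent.J4H50.YW.main_sqw d f hf

end Pool.Agent.Results.MP_9321be_ag.TangentConeJets
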