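import Pool.Agent.J4H46.MT.Cls

set_option autoImplicit false

/-!
# The motivic monodromy conjecture for Thom-Sebastiani sums and products

Let `𝓣` be the least class of polynomials (with a point) which contains

* the polynomials at smooth points of `F = 0`,
* the polynomials `h(x) (f₀(x) + ∑ y_j f_j(x)) ^ a`, `x = (x₁, x₂)`, with arbitrary `h`, `f₀`, `f_j` and
  `a ≥ 1`; in particular all the polynomials in two variables, also the non-reduced ones, and all the
  polynomials of degree at most one in all but two variables,
* the semi-weighted-homogeneous polynomials in any number of variables: `G₀ + G₁`, where `G₀` is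
  weighted homogeneous with an isolated critical point at the origin, and `G₁` has greater weight,
* with `F(x)` and `G(y)` the Thom-Sebastiani sum `F(x) + G(y)` and the product `F(x) G(y)`,
* with `F` the powers `F ^ k`,

and which is closed under changes of the coordinates, multiplication by units, and additional
variables. For example, `𝓣` contains all sums `f₁(x₁, x₂) + f₂(x₃, x₄) + ⋯ + f_r(x_{2r-1}, x_{2r})` of
arbitrary plane curves, their powers and products, all the suspensions `z₁ ^ d₁ + ⋯ + z_k ^ d_k + F`, and
all germs whose Hessian has corank at most two.

We prove the motivic monodromy conjecture in its strong form (with roots of the local Bernstein-Sato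
polynomial) for all the germs which become polynomials in `𝓣` in suitable formal coordinates, up
to a unit; and this for the usual motivic zeta function and for the monodromic one, whose
coefficients are the classes of the spaces of arcs over the multiplicative group, by the angular
component (so for the equivariant zeta function of Denef and Loeser).

The zeta functions are part of the definition of the class (`TZ`, in `Pool.Agent.J4H46.MT.TDefs`).
The coefficients are in an algebra `E` over a commutative ring `M` with a unit `L`, with the structure
`TSys`; the example is `M = K₀(Var_ℂ)[1/L]`, `E = K₀(Var_𝔾)[1/L]`, the Grothendieck ring of the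
varieties over the multiplicative group `𝔾`. The zeta function of `h (f₀ + ∑ y_j f_j) ^ a` is computed
by blowing up points of the plane (`GermW`, `lfK`, `edK`), with the classes `cl n P` of the families of
curves `P(v) τ ^ n = x`; the only property of these classes which is needed is that they are the
obvious ones if the curves are rational, because there are at most two branch points. The zeta
functions of `F(x) + G(y)` are given by the motivic Thom-Sebastiani formula (`tsm`), which is obtained
by dividing the arcs `(φ, ψ)` into the ones with `ord F(φ) < ord G(ψ)`, `ord F(φ) > ord G(ψ)` and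
`ord F(φ) = ord G(ψ)`.

Method:

* every zeta function `𝓩` in the class is decomposed as `𝓩 = 𝓡 + ρ` (`SGood`), `ρ` with coefficients in
  `M`, such that `𝓡`, `σ = (1 - L⁻¹ T) ρ` and `δ = (1 - tot 𝓩) / (1 - T) - ρ` have only denominators
  `1 - L⁻ⁿ Tᵃ` such that the evaluated functional equation `Ev` does not hold at `- n / a` (`KE`); also
  for `n / a = 1`. For `F(x) + G(y)` (`good_sum`) these series are, with coefficientwise products and
  `λ = zr(𝓡, 𝓡')`: `𝓡'' = 𝓡 δ' + 𝓡' δ + nz(𝓡, 𝓡')`, `σ'' = σ (1 + T δ') + (1 + T δ) σ' - L σ σ' + L⁻¹ T λ`,
  `δ'' = δ δ' + λ`; so all the denominators are sums of denominators for `F` and for `G` (`hd_mem`);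
* if the evaluated functional equations do not hold for `F` at `s₁` and for `G` at `s₂`, then it does
  not hold for `F(x) + G(y)` at `s₁ + s₂`, if this is not a natural number (`not_LEv_sum`, in
  `Pool.Agent.J4H50.TT.TSum`); similarly for products, powers, and polynomials with equivalent jets;
* `point_regW`, `base_case`: for `h (f₀ + ∑ y_j f_j) ^ a` the part `𝓡` has the total space `0`, and it is
  regular at all `s` for which `Ev` holds, also at `-1`: on a critical exceptional curve at most two
  points are special (`spec_gmul`); all denominators are removed at the same time, over the unique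
  factorization domain `ℤ[L, L⁻¹][pc n, cl n P]` (`descE`).
-/

namespace Pool.Agent.Results.MP_9321be_ag.ThomSebastianiGerms

open Pool.Agent.J4H46.MS Pool.Agent.J4H46.MT Pool.Agent.W574.MO
open Pool.Agent.N103.V (BecomesAt)
open Pool.Agent.Y229.PS (IsFormalBFunction)

/-- **The local motivic monodromy conjecture for Thom-Sebastiani sums and products.**

Let `M` be a commutative ring with a unit `L`, and `E` an `M`-algebra with the structure
`TSys M E L`; for example `M = K₀(Var_ℂ)[1/L]`, and `E` is the localized Grothendieck ring of the
varieties over the multiplicative group.

Let the formal power series `f` (for example the germ of a polynomial or of a holomorphic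
function) become the polynomial `F` in suitable formal coordinates at the origin, up to a unit
(`BecomesAt`), and let `TZ S σ F 0 𝓩`, that is, `F` is in the class `𝓣`, and `𝓩 ∈ E⟦T⟧` is its local
monodromic motivic zeta function at the origin (normalized such that the arcs at the origin have
the volume `1`), and so the one of `f`; the usual motivic zeta function is `tot 𝓩 ∈ M⟦T⟧`. Let `b`
satisfy `IsFormalBFunction f b`: `b(s) f ^ s = P(s) f ^ (s + 1)` for a differential operator `P(s)`
with formal power series as coefficients, polynomial in `s`. Then `𝓩` lies in the ring
`E[T][(1 - L⁻ⁿ Tᵃ)⁻¹]`, and `tot 𝓩` in the ring `M[T][(1 - L⁻ⁿ Tᵃ)⁻¹]`, where the pairs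
`a, n ≥ 1` are such that `b(-n/a) = 0` (`Kb b a n`). -/
theorem result {M E : Type} [CommRing M] [CommRing E] [Algebra M E] (L : Mˣ) (S : TSys M E L)
    {N : ℕ} (f : MvPowerSeries (Fin N) ℂ) {σ : Type} (F : MvPolynomial σ ℂ)
    (hf : BecomesAt f F) (Z : PowerSeries E) (hZ : TZ S σ F 0 Z)
    (b : Polynomial ℂ) (hb : IsFormalBFunction f b) :
    Z ∈ DenRing (LE L) (Kb b) ∧ cm S.tot Z ∈ DenRing L (Kb b) :=
  tz_local S f F hf Z hZ b hb

end Pool.Agent.Results.MP_9321be_ag.ThomSebastianiGerms
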